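import Pool.Agent.Lib.MP_f5929e_an.Outer3

set_option autoImplicit false

/-!
# Complete positive answer to Q1 of MP_f5929e_an

For every II₁ factor `N` and every nonprincipal ultrafilter `U` on `ℕ`, `N` is solid if and only
if it is `U`-solid. The definitions are in `Pool/Agent/Lib/MP_f5929e_an/Defs.lean`.
-/

namespace Pool.Agent.Results.MP_f5929e_an.SolidIffUSolid

open Pool.Agent.Lib.MP_f5929e_an

/-- Let `N` be a II₁ factor acting on any Hilbert space `H`, with normal tracial state `τ`, and let
`U` be a nonprincipal ultrafilter on `ℕ`. Then `N` is solid (each von Neumann subalgebra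
`A` of `N` with `A' ∩ N` diffuse is amenable) if and only if it is `U`-solid (each von Neumann
subalgebra `A` of `N` with `A' ∩ N^U` diffuse is amenable). -/
theorem result {H : Type*} [NormedAddCommGroup H] [InnerProductSpace ℂ H] [CompleteSpace H]
    (N : VonNeumannAlgebra H) (τ : (H →L[ℂ] H) → ℂ) (hN : IsIIOneFactor N τ)
    (U : Ultrafilter ℕ) (hU : ∀ n : ℕ, U ≠ pure n) :
    IsSolid N ↔ IsUSolid N τ U :=
  main hN hU

end Pool.Agent.Results.MP_f5929e_an.SolidIffUSolid
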